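import Pool.Agent.helper32.EXC.Spec11

/-!
# T11XRL: the action of a root element on lists of roots
-/

set_option autoImplicit false

open Finset

namespace Pool.Agent.EXC

theorem T11XRL_add {n : ℕ} (C : Matrix (Fin n) (Fin n) ℤ) [IsC C] {F : Type} [Field F] (a : Lm C F) (t : F)
    (v w : Lm C F) : xe C a t (v + w) = xe C a t v + xe C a t w := by
  unfold xe
  rw [br_add_right, fm_add_right, smul_add, mul_add, add_smul]
  abel

theorem T11XRL_smul {n : ℕ} (C : Matrix (Fin n) (Fin n) ℤ) [IsC C] {F : Type} [Field F] (a : Lm C F) (t c : F)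
    (v : Lm C F) : xe C a t (c • v) = c • xe C a t v := by
  unfold xe
  rw [br_smul_right, fm_smul_right, smul_add, smul_add, smul_comm t c, mul_left_comm, mul_smul c]

theorem T11XRL_zero {n : ℕ} (C : Matrix (Fin n) (Fin n) ℤ) [IsC C] {F : Type} [Field F] (a : Lm C F) (t : F) :
    xe C a t (0 : Lm C F) = 0 := by
  have h := T11XRL_smul C a t 0 0
  rwa [zero_smul, zero_smul] at h

theorem T11XRL_append {n : ℕ} (C : Matrix (Fin n) (Fin n) ℤ) [IsC C] {F : Type} [Field F]
    (l l' : List ((Fin n → ℤ) × ℤ)) : (ls C (l ++ l') : Lm C F) = ls C l + ls C l' := by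
  unfold ls
  rw [List.map_append, List.sum_append]

theorem T11XRL (hACT : ACT_stmt) : T11XRL_stmt := by
  intro n C _ F _ α t l hα hl
  induction l with
  | nil =>
    constructor
    · have h1 : (ls C ([] : List ((Fin n → ℤ) × ℤ)) : Lm C F) = 0 := by simp [ls]
      have h2 : xr C α t ([] : List ((Fin n → ℤ) × ℤ)) = [] := by simp [xr]
      rw [h2, h1]
      exact T11XRL_zero C _ _
    · intro p hp
      simp [xr] at hp
  | cons p l ih =>
    obtain ⟨ih1, ih2⟩ := ih fun q hq => hl q (List.mem_cons_of_mem _ hq)
    obtain ⟨hp1, hp2⟩ := hl p List.mem_cons_self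
    obtain ⟨A1, A2, -, -, -⟩ := hACT n C F α (t : F) hα
    have e1 : (ls C (p :: l) : Lm C F) = (p.2 : F) • (E C p.1 : Lm C F) + ls C l := by
      simp [ls]
    have e2 : xr C α t (p :: l) =
        (if ip C α p.1 = -1 then [p, (α + p.1, t * sg C α p.1 * p.2)] else [p]) ++ xr C α t l := by
      simp [xr]
    rw [e1, e2, T11XRL_append, T11XRL_add, T11XRL_smul, ih1]
    by_cases h : ip C α p.1 = -1
    · rw [if_pos h, A2 p.1 hp1 h]
      constructor
      · congr 1
        simp only [ls, List.map_cons, List.map_nil, List.sum_cons, List.sum_nil, add_zero]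
        rw [smul_add, smul_smul]
        congr 2
        push_cast
        ring
      · intro q hq
        rw [List.mem_append] at hq
        rcases hq with hq | hq
        · simp only [List.mem_cons, List.not_mem_nil, or_false] at hq
          rcases hq with rfl | rfl
          · exact hp1
          · exact (add_root_iff hα hp1).2 h
        · exact ih2 q hq
    · rw [if_neg h, A1 p.1 hp1 (by omega)]
      constructor
      · congr 1
        simp [ls]
      · intro q hq
        rw [List.mem_append] at hq
        rcases hq with hq | hq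
        · simp only [List.mem_cons, List.not_mem_nil, or_false] at hq
          rw [hq]
          exact hp1
        · exact ih2 q hq

end Pool.Agent.EXC
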